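import Pool.Agent.MP_d5eec5_gt.H77.GBasic

/-! Repeated insertion of full turns, and the passage from the vertex `0` to every corner. -/

set_option autoImplicit false

namespace Pool.Agent.MP_d5eec5_gt.H77

open Pool.Agent.MP_d5eec5_gt.H48 Finset

theorem ef_len {i : ℕ} (x : Fin 3) {w : Wd} (hi : i ≤ w.length) :
    (insAt i x w).length = w.length + 2 := by
  unfold insAt
  simp only [List.length_append, List.length_take, List.length_drop, List.length_cons,
    List.length_nil]
  omega

theorem ef_lt {i k : ℕ} (x : Fin 3) {w : Wd} (hi : i ≤ w.length) (hk : k < i) :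
    (insAt i x w)[k]? = w[k]? := by
  unfold insAt
  rw [List.append_assoc, List.getElem?_append_left (by rw [List.length_take]; omega),
    List.getElem?_take_of_lt hk]

theorem ef_ge {i : ℕ} (k : ℕ) (x : Fin 3) {w : Wd} (hi : i ≤ w.length) :
    (insAt i x w)[i + k]? = ((2 - x) :: x :: w.drop i)[k]? := by
  unfold insAt
  rw [List.append_assoc, List.getElem?_append_right (by rw [List.length_take]; omega),
    List.length_take, show i + k - min i w.length = k by omega]
  rfl

theorem ef_at {i : ℕ} (x : Fin 3) {w : Wd} (hi : i ≤ w.length) :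
    (insAt i x w)[i]? = some (2 - x) := by
  have := ef_ge 0 x hi
  simpa using this

theorem ef_at1 {i : ℕ} (x : Fin 3) {w : Wd} (hi : i ≤ w.length) :
    (insAt i x w)[i + 1]? = some x := by
  have := ef_ge 1 x hi
  simpa using this

theorem ef_gt {i k : ℕ} (x : Fin 3) {w : Wd} (hi : i ≤ w.length) (hk : i ≤ k) :
    (insAt i x w)[k + 2]? = w[k]? := by
  have := ef_ge (k - i + 2) x hi
  rw [show i + (k - i + 2) = k + 2 by omega] at this
  rw [this, List.getElem?_cons_succ, List.getElem?_cons_succ, List.getElem?_drop,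
    show i + (k - i) = k by omega]

theorem ef_chain (w : Wd) :
    w.IsChain (· ≠ ·) ↔ ∀ k, k + 1 < w.length → w[k]? ≠ w[k + 1]? := by
  rw [List.isChain_iff_getElem]
  constructor
  · intro h k hk
    rw [List.getElem?_eq_getElem (by omega), List.getElem?_eq_getElem hk]
    simpa using h k hk
  · intro h k hk
    have := h k hk
    rw [List.getElem?_eq_getElem (by omega), List.getElem?_eq_getElem hk] at this
    simpa using this

theorem ef_three {a b c : Option (Fin 3)} (ha : a.isSome) (hb : b.isSome) (hc : c.isSome)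
    (h1 : a ≠ some 1) (h2 : b ≠ some 1) (h3 : c ≠ some 1) (hab : a ≠ b) (hbc : b ≠ c) :
    c = a := by
  obtain ⟨a, rfl⟩ := Option.isSome_iff_exists.mp ha
  obtain ⟨b, rfl⟩ := Option.isSome_iff_exists.mp hb
  obtain ⟨c, rfl⟩ := Option.isSome_iff_exists.mp hc
  simp only [ne_eq, Option.some.injEq] at *
  clear ha hb hc
  revert a b c
  decide

theorem ef_some {w : Wd} {k : ℕ} (h : k < w.length) : (w[k]?).isSome := by
  rw [List.getElem?_eq_getElem h]; rfl

theorem ef_two {x : Fin 3} (h : x ≠ 1) : 2 - x ≠ x ∧ 2 - x ≠ 1 := by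
  revert x
  decide

theorem ef_vg {τ η x : Fin 3} {w : Wd} {i : ℕ} (h : VG τ η w) (hx : w[i]? = some x)
    (h1 : x ≠ 1) : VG τ η (insAt (i + 1) x w) := by
  have hi : i < w.length := by
    by_contra hc
    rw [List.getElem?_eq_none (by omega)] at hx
    exact absurd hx (by simp)
  have hl := ef_len x (show i + 1 ≤ w.length from hi)
  obtain ⟨a, b, c⟩ := h
  refine ⟨?_, ?_, ?_⟩
  · rw [List.head?_eq_getElem?] at a ⊢
    rw [ef_lt x hi (by omega), a]
  · rw [List.getLast?_eq_getElem?] at b ⊢
    rw [hl]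
    by_cases e : i + 1 = w.length
    · rw [show w.length + 2 - 1 = i + 1 + 1 by omega, ef_at1 x hi, ← b, ← hx,
        show w.length - 1 = i by omega]
    · rw [show w.length + 2 - 1 = w.length - 1 + 2 by omega, ef_gt x hi (by omega), b]
  · rw [ef_chain] at c ⊢
    intro k hk
    rw [hl] at hk
    rcases lt_trichotomy k i with q | q | q
    · rw [ef_lt x hi (by omega), ef_lt x hi (by omega)]
      exact c k (by omega)
    · subst q
      rw [ef_lt x hi (by omega), ef_at x hi, hx]
      simpa using (ef_two h1).1.symm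
    · by_cases e : k = i + 1
      · subst e
        rw [ef_at x hi, ef_at1 x hi]
        simpa using (ef_two h1).1
      · by_cases e' : k = i + 1 + 1
        · subst e'
          rw [ef_at1 x hi, ef_gt x hi le_rfl, ← hx]
          exact c i (by omega)
        · obtain ⟨t, rfl⟩ : ∃ t, k = t + 2 := ⟨k - 2, by omega⟩
          rw [ef_gt x hi (by omega), show t + 2 + 1 = t + 1 + 2 by omega,
            ef_gt x hi (by omega)]
          exact c t (by omega)

theorem ef_run {x : Fin 3} {w : Wd} {j i : ℕ} (h : InRun w j (i + 1)) (h1 : x ≠ 1) :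
    InRun (insAt (i + 1) x w) j (i + 3) := by
  have hi := h.le
  have hj := h.1
  have hl := ef_len x hi
  have a : InRun (insAt (i + 1) x w) j (i + 1) := by
    refine ⟨hj, by omega, ?_, fun t ht => ?_⟩
    · rcases h.2.2.1 with q | q
      · exact Or.inl q
      · right
        rw [ef_lt x hi (by omega), q]
    · rw [ef_lt x hi (by omega)]
      exact h.2.2.2 t ht
  have b := a.succ (by omega) (by rw [ef_at x hi]; simpa using (ef_two h1).2)
  exact b.succ (by omega) (by rw [ef_at1 x hi]; simpa using h1)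

theorem ef_shift {x : Fin 3} {w : Wd} {j i k : ℕ} (c : w.IsChain (· ≠ ·))
    (h : InRun w j (i + 1)) (hx : w[i]? = some x) (hk : j ≤ k) :
    (insAt (i + 1) x w)[k + 2]? = w[k]? := by
  have hi := h.le
  have hj := h.1
  rw [ef_chain] at c
  have h1 : x ≠ 1 := by
    rintro rfl
    exact h.ne_one (i := i) (by omega) (by omega) hx
  rcases lt_trichotomy k i with q | q | q
  · by_cases e : k + 1 = i
    · subst e
      rw [show k + 2 = k + 1 + 1 by omega, ef_at x hi]
      refine ef_three (b := some x) (ef_some (by omega)) rfl rfl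
        (h.ne_one hk (by omega)) (by simpa using h1) (by simpa using (ef_two h1).2) ?_
        (by simpa using (ef_two h1).1.symm)
      rw [← hx]
      exact c k (by omega)
    · rw [ef_lt x hi (by omega)]
      exact ef_three (b := w[k + 1]?) (ef_some (by omega)) (ef_some (by omega))
        (ef_some (by omega)) (h.ne_one hk (by omega)) (h.ne_one (by omega) (by omega))
        (h.ne_one (by omega) (by omega)) (c k (by omega)) (c (k + 1) (by omega))
  · subst q
    rw [show k + 2 = k + 1 + 1 by omega, ef_at1 x hi, hx]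
  · exact ef_gt x hi (by omega)

theorem ef_del {x : Fin 3} {w : Wd} {j i : ℕ} (s : ℕ) (c : w.IsChain (· ≠ ·))
    (h : InRun w j (i + 1)) (hx : w[i]? = some x) :
    del (s + 1) j (insAt (i + 1) x w) = del s j w := by
  have hi := h.le
  have hj := h.1
  unfold del
  congr 1
  · apply List.ext_getElem?
    intro k
    by_cases e : k < j + 1
    · rw [List.getElem?_take_of_lt e, List.getElem?_take_of_lt e, ef_lt x hi (by omega)]
    · rw [List.getElem?_take_eq_none (by omega), List.getElem?_take_eq_none (by omega)]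
  · apply List.ext_getElem?
    intro k
    rw [List.getElem?_drop, List.getElem?_drop,
      show j + 1 + 2 * (s + 1) + k = j + 1 + 2 * s + k + 2 by omega]
    exact ef_shift c h hx (by omega)

theorem ef_iter (hI : StmtIns) {τ η : Fin 3} {w : Wd} {p : ℕ → ℚ} {u v : ℚ} {j i : ℕ}
    (hw : VG τ η w) (hp : Fit τ η w p) (ht : Thr u v) (hr : InRun w j i)
    (h1 : ins u v (p i)) (h2 : ¬ ins u v (p (i + 1))) (s : ℕ) :
    ∃ (w' : Wd) (p' : ℕ → ℚ) (u' v' : ℚ), VG τ η w' ∧ Fit τ η w' p' ∧ Thr u' v' ∧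
      kap u' v' w'.length p' = kap u v w.length p ∧
      X w'.length p' + s ≤ X w.length p + kap u v w.length p * s ∧
      InRun w' j (i + 2 * s) ∧ ins u' v' (p' (i + 2 * s)) ∧ ¬ ins u' v' (p' (i + 2 * s + 1)) ∧
      del s j w' = w := by
  induction s with
  | zero =>
    refine ⟨w, p, u, v, hw, hp, ht, rfl, by simp, hr, h1, h2, ?_⟩
    unfold del
    simp
  | succ s ih =>
    obtain ⟨w', p', u', v', a1, a2, a3, a4, a5, a6, a7, a8, a9⟩ := ih
    obtain ⟨k, hk⟩ : ∃ k, i + 2 * s = k + 1 := ⟨i + 2 * s - 1, by have := a6.1; omega⟩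
    rw [hk] at a6 a7 a8
    have hle := a6.le
    have hx : w'[k]? = some (w'[k]'hle) := List.getElem?_eq_getElem hle
    generalize w'[k]'hle = x at hx
    have hx1 : x ≠ 1 := a2.ins_letter a3 hx a7
    obtain ⟨q, u'', v'', b1, b2, b3, b4, b5, b6⟩ := hI τ η w' p' u' v' k x a2 a3 hx a7 a8
    have hl := ef_len x hle
    have e : i + 2 * (s + 1) = k + 3 := by omega
    refine ⟨insAt (k + 1) x w', q, u'', v'', ef_vg a1 hx hx1, b2, b1, ?_, ?_, ?_, ?_, ?_, ?_⟩
    · rw [hl, b4, a4]
    · rw [hl, Nat.mul_succ]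
      rw [a4] at b3
      omega
    · rw [e]; exact ef_run a6 hx1
    · rw [e]; exact b5
    · rw [e]; exact b6
    · rw [ef_del s a1.2.2 a6 hx, a9]

theorem ef_of : StmtG0 → StmtIns → StmtSw → StmtZn → StmtCl → StmtEF := by
  intro hG hI hS hZ hC τ η w r hne hw hr
  obtain ⟨p, hp, hX⟩ := hG.1 τ η w hne
  obtain ⟨u, v, ht, hm⟩ := hS τ η w p r hp hr
  obtain ⟨q, u', v', ht', hq, hX', hm', hc⟩ := hZ τ η w p u v hw hp ht
  obtain ⟨hk, hex⟩ := hC τ η w q u' v' hw hq ht' hc
  rw [hm', hm] at hk
  refine ⟨met u' v' w q, by rw [hm', hm], fun j hj s => ?_⟩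
  obtain ⟨i, b1, b2, b3⟩ := hex j hj
  obtain ⟨w', p', u'', v'', a1, a2, -, -, a5, a6, -, -, a9⟩ := ef_iter hI hw hq ht' b1 b2 b3 s
  refine ⟨w', a1, ?_, a9, ?_⟩
  · have := b1.1
    have h := (a6.mono (i := j + (2 * s + 1)) (by omega) (by omega)).2
    rwa [show j + (2 * s + 1) - j = 2 * s + 1 by omega] at h
  · have h1 := IG_le a2
    have h2 := Nat.mul_le_mul_right s hk
    omega

theorem geo_some (c x : Fin 3) (a : Option (Fin 3)) :
    a.map (· + c) = some (x + c) ↔ a = some x := by
  revert c x a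
  decide

theorem geo_vg (c τ η : Fin 3) (w : Wd) : VG (τ + c) (η + c) (w.map (· + c)) ↔ VG τ η w := by
  unfold VG
  rw [List.head?_map, List.getLast?_map, add_right_comm τ, add_right_comm η, geo_some, geo_some,
    List.isChain_map]
  simp only [ne_eq, add_left_inj]

theorem geo_st (c o : Fin 3) (w : Wd) (p l : ℕ) :
    St (o + c) (w.map (· + c)) p l ↔ St o w p l := by
  unfold St
  simp only [List.length_map, List.getElem?_map, ne_eq, geo_some]

theorem geo_runs (c o : Fin 3) (w : Wd) (l : ℕ) :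
    runs (o + c) (w.map (· + c)) l = runs o w l := by
  unfold runs
  simp only [List.length_map, geo_st]

theorem geo_del (c : Fin 3) (s p : ℕ) (w : Wd) :
    del s p (w.map (· + c)) = (del s p w).map (· + c) := by
  unfold del
  rw [List.map_append, List.map_take, List.map_drop]

theorem geo_inj (c : Fin 3) {w w' : Wd} (h : w.map (· + c) = w'.map (· + c)) : w = w' :=
  List.map_injective_iff.mpr (add_left_injective c) h

theorem geo_surj (c : Fin 3) (w : Wd) : ∃ w' : Wd, w'.map (· + c) = w :=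
  ⟨w.map (· - c), by simp [List.map_map, Function.comp_def]⟩

theorem geo_ig (hG : StmtG0) (c : Fin 3) (w : Wd) :
    IG (1 + c) (2 + c) (w.map (· + c)) = I w := by
  have h := hG.2.1
  have h3 : c = 0 ∨ c = 1 ∨ c = 1 + 1 := by
    revert c
    decide
  unfold I
  rcases h3 with rfl | rfl | rfl
  · simp
  · exact h 1 2 w
  · rw [← h 1 2 w, ← h (1 + 1) (2 + 1) (w.map (· + 1)), List.map_map, add_assoc, add_assoc]
    congr 2
    funext x
    simp only [Function.comp_def, add_assoc]

theorem geo_of : StmtG0 → StmtKF → StmtEF → StmtSZ → H48.Geo I := by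
  intro hG hK hE hS
  have hne : ∀ c : Fin 3, 1 + c ≠ 2 + c := by decide
  refine ⟨fun w _ => ?_, fun o w s S hw hs hS => ?_, fun o w r hw hr => ?_,
    fun w A B hw hO => ?_⟩
  · obtain ⟨p, _, hX⟩ := hG.1 1 2 w (by decide)
    unfold I
    rw [← hX]
    exact X_le _ _
  · obtain ⟨c, hc⟩ : ∃ c, o + c = 1 := ⟨1 - o, by simp⟩
    obtain ⟨κ, h1, h2⟩ := hK (1 + c) (2 + c) (w.map (· + c)) s S (hne c)
      ((geo_vg c 1 2 w).mpr hw) hs (fun p hp => by rw [← hc, geo_st]; exact hS p hp)
    refine ⟨κ, h1, fun p hp => ?_⟩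
    have := h2 p hp
    rwa [geo_del, geo_ig hG, geo_ig hG] at this
  · obtain ⟨c, hc⟩ : ∃ c, o + c = 1 := ⟨1 - o, by simp⟩
    obtain ⟨R, h1, h2⟩ := hE (1 + c) (2 + c) (w.map (· + c)) r (hne c)
      ((geo_vg c 1 2 w).mpr hw) (by rw [← hc, geo_runs]; exact hr)
    refine ⟨R, h1, fun p hp s => ?_⟩
    obtain ⟨w', a1, a2, a3, a4⟩ := h2 p hp s
    obtain ⟨y, rfl⟩ := geo_surj c w'
    rw [geo_vg] at a1
    rw [← hc, geo_st] at a2
    rw [geo_del] at a3
    rw [geo_ig hG, geo_ig hG] at a4
    refine ⟨y, a1, a2, geo_inj c a3, ?_⟩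
    by_cases ho : o = 1
    · have hc0 : c = 0 := by
        rw [ho] at hc
        simpa using hc
      rw [hc0, if_neg (by decide)] at a4
      rw [if_pos ho, if_pos ho]
      exact a4
    · rw [if_neg ho, if_neg ho]
      have : (2 * r + (if 1 + c = 0 ∨ 2 + c = 0 then 1 else 0)) * s ≤ (2 * r + 1) * s := by
        apply Nat.mul_le_mul_right
        split_ifs <;> omega
      omega
  · obtain ⟨p, hp, hX⟩ := hG.1 1 2 w (by decide)
    unfold I
    rw [← hX]
    exact hS 1 2 w p A B hw.2.2 hp hO

end Pool.Agent.MP_d5eec5_gt.H77
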