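import Pool.Agent.MP_d5eec5_gt.H77.KNum

/-! A line diagram is a single arc. -/

set_option autoImplicit false

namespace Pool.Agent.MP_d5eec5_gt.H77

open Pool.Agent.MP_d5eec5_gt.H48 Kind

theorem ld_cr (l₁ l₂ : List ℕ) (s t : ℕ) :
    Num false (l₁ ++ s :: t :: l₂) [(l₁.length, cr true)] (l₁ ++ t :: s :: l₂) [] := by
  have h : Loc false (cr true) [s, t] [t, s] := ⟨s, t, rfl, rfl, by simp⟩
  simpa using Num.cons (l₁ := l₁) (l₂ := l₂) h (Num.nil _)

theorem ld_chain (a b : ℕ) (l₁ l₂ : List ℕ) :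
    Num false (a :: b :: (l₁ ++ l₂)) (chain l₁.length) (a :: (l₁ ++ b :: l₂)) [] ∧
      Num false (a :: (l₁ ++ b :: l₂)) (mir (chain l₁.length)) (a :: b :: (l₁ ++ l₂)) [] := by
  induction l₁ using List.reverseRecOn generalizing l₂ with
  | nil => exact ⟨Num.nil _, Num.nil _⟩
  | append_singleton l c ih =>
    obtain ⟨h1, h2⟩ := ih (c :: l₂)
    rw [List.length_append, List.length_singleton, chain_succ, mir_append]
    constructor
    · simpa using h1.append (ld_cr (a :: l) l₂ b c)
    · have := (ld_cr (a :: l) l₂ c b).append h2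
      simpa [mir, mirK] using this

theorem ld_split {f : ℕ → ℕ} {a : ℕ} {z : List ℕ} (h : Dbl ((a :: z).map f)) :
    ∃ l₁ b l₂, z = l₁ ++ b :: l₂ ∧ f a = f b ∧ Dbl ((l₁ ++ l₂).map f) ∧
      bot ((a :: z).map f) = bot ((l₁ ++ l₂).map f) ++ (0, cup) :: chain l₁.length := by
  rw [List.map_cons] at h ⊢
  obtain ⟨b, hb, e⟩ := List.mem_map.mp h.mem_tail
  obtain ⟨l₁, l₂, rfl⟩ := List.append_of_mem hb
  have hc := h.count_head
  have hn : f a ∉ l₁.map f := by
    rw [← List.count_eq_zero]
    simp only [List.map_append, List.map_cons, e, List.count_append, List.count_cons_self] at hc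
    omega
  have h1 : ((l₁ ++ b :: l₂).map f).erase (f a) = (l₁ ++ l₂).map f := by
    rw [List.map_append, List.erase_append_right _ hn, List.map_cons, e, List.erase_cons_head,
      List.map_append]
  have h2 : ((l₁ ++ b :: l₂).map f).idxOf (f a) = l₁.length := by
    rw [List.map_append, List.idxOf_append_of_notMem hn, List.map_cons, e]
    simp
  refine ⟨l₁, b, l₂, rfl, e.symm, h1 ▸ h.erase, ?_⟩
  rw [bot_cons, h1, h2]

theorem ld_nodup {a b : ℕ} {l₁ l₂ : List ℕ} (h : (a :: (l₁ ++ b :: l₂)).Nodup) :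
    a ≠ b ∧ (l₁ ++ l₂).Nodup := by
  have := ((List.perm_middle (a := b) (l₁ := l₁) (l₂ := l₂)).cons a).nodup_iff.mp h
  simp only [List.nodup_cons, List.mem_cons, not_or] at this
  exact ⟨this.1.1, this.2.2⟩

theorem ld_bot {f : ℕ → ℕ} (hf : ∀ a b, a ≠ b → f a = f b → Loc false cup [] [a, b])
    {z : List ℕ} (hz : z.Nodup) (h : Dbl (z.map f)) :
    ∃ C, Num false [] (bot (z.map f)) z C ∧ C.Perm z := by
  induction hn : z.length using Nat.strong_induction_on generalizing z with
  | _ n ih =>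
    cases z with
    | nil => exact ⟨[], by simpa using Num.nil _, List.Perm.refl _⟩
    | cons a z =>
      obtain ⟨l₁, b, l₂, rfl, e, h1, h2⟩ := ld_split h
      obtain ⟨hab, hz'⟩ := ld_nodup hz
      obtain ⟨C, h3, h4⟩ := ih (l₁ ++ l₂).length (by simp at hn ⊢; omega) hz' h1 rfl
      have h5 := Num.cons (l₁ := []) (l₂ := l₁ ++ l₂) (hf a b hab e) (ld_chain a b l₁ l₂).1
      rw [h2]
      refine ⟨C ++ [a, b], by simpa using h3.append h5, ?_⟩
      refine List.perm_append_comm.trans (List.Perm.cons _ ?_)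
      exact (List.Perm.cons _ h4).trans List.perm_middle.symm

theorem ld_top {f : ℕ → ℕ} (hf : ∀ a b, a ≠ b → f a = f b → Loc false cap [a, b] [])
    {z : List ℕ} (hz : z.Nodup) (h : Dbl (z.map f)) : Num false z (top (z.map f)) [] [] := by
  induction hn : z.length using Nat.strong_induction_on generalizing z with
  | _ n ih =>
    cases z with
    | nil => simpa [top] using Num.nil _
    | cons a z =>
      obtain ⟨l₁, b, l₂, rfl, e, h1, h2⟩ := ld_split h
      obtain ⟨hab, hz'⟩ := ld_nodup hz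
      have h3 := ih (l₁ ++ l₂).length (by simp at hn ⊢; omega) hz' h1 rfl
      have h5 := Num.cons (l₁ := []) (l₂ := l₁ ++ l₂) (hf a b hab e) h3
      have h6 := (ld_chain a b l₁ l₂).2.append h5
      unfold top at h6 ⊢
      rw [h2, mir_append, mir_cons]
      simpa [mirK] using h6

theorem ld_ends (a b c : List ℕ) {s t : ℕ} (hs : Even s) (ht : Odd t) :
    Num false (a ++ b ++ c) (ends a.length b.length) (a ++ s :: b ++ t :: c) [s, t] := by
  have h1 : Loc false (up false) [] [s] := ⟨rfl, s, rfl, by simpa using hs⟩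
  have h2 : Loc false (up true) [] [t] := ⟨rfl, t, rfl, by simpa using ht⟩
  have h3 := Num.cons (l₁ := a ++ s :: b) (l₂ := c) h2 (Num.nil _)
  have h4 := Num.cons (l₁ := a) (l₂ := b ++ c) h1 (by simpa using h3)
  have e : a.length + (b.length + 1) = a.length + 1 + b.length := by omega
  simpa [ends, e] using h4

theorem ld : StmtLD := by
  intro L hL
  have hp := hL.perm_top
  obtain ⟨C, h1, h2⟩ := ld_bot (f := fun x => (x + 1) / 2) (z := L.all) (by
    intro a b hab e
    refine ⟨rfl, min a b, ?_, ?_⟩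
    · rw [Nat.odd_iff]; omega
    · simp only [List.cons.injEq, and_true]; omega)
    (hL.2.nodup_iff.mpr List.nodup_range') hL.dbl_bot
  have h3 := ld_top (f := fun x => x / 2) (z := L.a ++ 0 :: L.b ++ (L.m + 1) :: L.c) (by
    intro a b hab e
    refine ⟨rfl, min a b, ?_, ?_⟩
    · rw [Nat.even_iff]; omega
    · simp only [List.cons.injEq, and_true]; omega)
    (hp.nodup_iff.mpr List.nodup_range) hL.dbl_top
  have h4 := ld_ends L.a L.b L.c (s := 0) (t := L.m + 1) Even.zero hL.1.add_one
  refine ⟨LD_countP L false, LD_countP L true, _, (h1.append h4).append h3, ?_⟩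
  refine (List.Perm.nodup_iff ?_).mp (hp.nodup_iff.mpr List.nodup_range)
  rw [List.perm_iff_count] at h2 ⊢
  intro x
  have := h2 x
  simp only [Line.all, List.count_append, List.count_cons, List.count_nil] at this ⊢
  omega

end Pool.Agent.MP_d5eec5_gt.H77
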